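import Mathlib
import Pool.Agent.Lib.MP_fe8e9b_al_N.Stm6

/-!
# MP_fe8e9b_al: anabelian groups of bounded height

For all `d`, `L`, `C`, `k₀`, `ε₀ > 0` and `l` there are `k` and `ε > 0` such that every finite group
of the class `Cls6 d L C k₀ ε₀ l` (at most `l` extensions; the layers are generated by simple
components: all alternating groups, all groups `PSL_n` of finite fields, other simple groups with a
condition on conjugacy classes) has a generating set of at most `k` elements whose Cayley graph is
an `ε`-expander. In particular (`stm6_hgt`) this holds for all groups generated by `d` elements with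
a normal series of length `l` whose factors are direct products of alternating groups and groups
`PSL_n` of finite fields.
-/

set_option autoImplicit false

open scoped BigOperators Pointwise

namespace Pool.Agent.Results.MP_fe8e9b_al.BoundedHeight

open Pool.Agent.MPfe8e9bN

/-- The theorem. -/
theorem result (d L C k₀ : ℕ) {ε₀ : ℝ} (hε₀ : 0 < ε₀) (l : ℕ) :
    ∃ (k : ℕ) (ε : ℝ), 0 < ε ∧
    ∀ (G : Type) [inst : Group G] [Fintype G] [DecidableEq G], Cls6 d L C k₀ ε₀ l G inst →
      ∃ S : Finset G, S.card ≤ k ∧ Subgroup.closure (S : Set G) = ⊤ ∧
        ∀ A : Finset G, 2 * A.card ≤ Fintype.card G →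
          (1 + ε) * (A.card : ℝ) ≤ ((A ∪ S * A).card : ℝ) :=
  cls_main6 d L C k₀ hε₀ l

end Pool.Agent.Results.MP_fe8e9b_al.BoundedHeight
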