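import Mathlib
import Pool.Agent.Lib.MP_fe8e9b_al_V.Main2

/-!
# MP_fe8e9b_al: wreath products over arbitrary transitive actions of large degree

The groups of the class `LargeClass k N ε` (iterated permutational wreath products, with an
arbitrary number of steps, over arbitrary transitive actions of perfect expanding groups on sets
with at least `N` elements) have generating sets of bounded size whose Cayley graphs are uniform
expanders; `N` and the bounds depend only on `k` and `ε`.
-/

set_option autoImplicit false

open scoped BigOperators Pointwise

namespace Pool.Agent.Results.MP_fe8e9b_al.LargeDegreeTowers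

open Pool.Agent.MPfe8e9bV

/-- The theorem. -/
theorem result (k : ℕ) (ε : ℝ) (hε : 0 < ε) :
    ∃ (N k' : ℕ) (ε' : ℝ), 0 < ε' ∧
      ∀ (G : Type) [inst : Group G] [Fintype G] [DecidableEq G],
      LargeClass k N ε G inst →
      ∃ S : Finset G, S.card ≤ k' ∧ Subgroup.closure (S : Set G) = ⊤ ∧
        ∀ A : Finset G, 2 * A.card ≤ Fintype.card G →
          (1 + ε') * (A.card : ℝ) ≤ ((A ∪ S * A).card : ℝ) :=
  large_main k hε

end Pool.Agent.Results.MP_fe8e9b_al.LargeDegreeTowers
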