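import Mathlib
import Pool.Agent.Lib.MP_fe8e9b_al_T.Main4

/-!
# MP_fe8e9b_al: iterated wreath products with several orbits in every layer

The groups of the class `OrbitTowers k m r ε` (iterated permutational wreath products
`(∏ i, G i ^ (X i)) ⋊ P`, with an arbitrary number of steps, where `P` is an expanding group in
which every element is a product of `m` commutators, acting on several sets of arbitrary sizes,
transitively on each of them) have generating sets of bounded size whose Cayley graphs are uniform
expanders; the bounds depend only on `k`, `m`, `r` and `ε`.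
-/

set_option autoImplicit false

open scoped BigOperators Pointwise

namespace Pool.Agent.Results.MP_fe8e9b_al.OrbitTowers

open Pool.Agent.MPfe8e9bT

/-- The theorem. -/
theorem result (k m r : ℕ) (ε : ℝ) (hε : 0 < ε) :
    ∃ (k' : ℕ) (ε' : ℝ), 0 < ε' ∧
      ∀ (G : Type) [inst : Group G] [Fintype G] [DecidableEq G],
      OrbitTowers k m r ε G inst →
      ∃ S : Finset G, S.card ≤ k' ∧ Subgroup.closure (S : Set G) = ⊤ ∧
        ∀ A : Finset G, 2 * A.card ≤ Fintype.card G →
          (1 + ε') * (A.card : ℝ) ≤ ((A ∪ S * A).card : ℝ) :=
  orbit_main k m r hε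

end Pool.Agent.Results.MP_fe8e9b_al.OrbitTowers
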