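import Mathlib
import Pool.Agent.Lib.MP_fe8e9b_al_W.Main

/-!
# MP_fe8e9b_al: expanding groups of unbounded height

The groups of the class `WreathClass k D d ε` (iterated permutational wreath products, with an
arbitrary number of steps, arbitrary degrees at least five of the alternating groups, and arbitrary
perfect expanding groups at the bottom) have generating sets of bounded size whose Cayley graphs
are uniform expanders; the bounds depend only on `k`, `D`, `d`, `ε`.
-/

set_option autoImplicit false

open scoped BigOperators Pointwise

namespace Pool.Agent.Results.MP_fe8e9b_al.WreathTowers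

open Pool.Agent.MPfe8e9bW

/-- The theorem. -/
theorem result (k D d : ℕ) (ε : ℝ) (hε : 0 < ε) :
    ∃ (k' : ℕ) (ε' : ℝ), 0 < ε' ∧ ∀ (G : Type) [inst : Group G] [Fintype G] [DecidableEq G],
      WreathClass k D d ε G inst →
      ∃ S : Finset G, S.card ≤ k' ∧ Subgroup.closure (S : Set G) = ⊤ ∧
        ∀ A : Finset G, 2 * A.card ≤ Fintype.card G →
          (1 + ε') * (A.card : ℝ) ≤ ((A ∪ S * A).card : ℝ) :=
  wreath_main k D d hε

end Pool.Agent.Results.MP_fe8e9b_al.WreathTowers
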